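import Mathlib
import Pool.Agent.H92.SG.Stmts

/-!
# MKC: conjugation of a marked braid by a generator
-/

namespace Pool.Agent.H52.SG

open Pool.Agent.H92.SG

/-- Shift by three strands. -/
def sh3 : B →* B := sh.comp (sh.comp sh)

theorem sh3_eq (x : B) : (sh^[3]) x = sh3 x := rfl

theorem sh3_σ (i : ℕ) : sh3 (σ i) = σ (3 + i) := by
  have h : sh3 (σ i) = σ (i + 1 + 1 + 1) := by
    simp only [sh3, MonoidHom.comp_apply, sh_σ]
  rw [h]; congr 1; omega

/-- The shifted braids on the strands `3, …, N + 2`. -/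
def S (N : ℕ) : Subgroup B := (Bn N).map sh3

theorem sh3_mem_S {N : ℕ} {x : B} (h : x ∈ Bn N) : sh3 x ∈ S N := ⟨x, h, rfl⟩

theorem σ_mem_S {i N : ℕ} (h : i + 1 < N) : σ (3 + i) ∈ S N :=
  ⟨σ i, σ_mem_Bn h, sh3_σ i⟩

theorem S_mono {m n : ℕ} (h : m ≤ n) : S m ≤ S n := Subgroup.map_mono (Bn_mono h)

theorem S_le (N : ℕ) : S N ≤ Bn (N + 3) := by
  rintro x ⟨y, hy, rfl⟩
  refine Bn_induction (p := fun y => sh3 y ∈ Bn (N + 3)) ?_ ?_ ?_ ?_ hy
  · simp
  · intro i hi
    rw [sh3_σ]; exact σ_mem_Bn (by omega)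
  · intro x _ y _ hx hy
    rw [map_mul]; exact (Bn (N + 3)).mul_mem hx hy
  · intro x _ hx
    rw [map_inv]; exact (Bn (N + 3)).inv_mem hx

theorem hp_mem {p N : ℕ} (h : p < N) : hp p ∈ S N := by
  induction p with
  | zero => exact (S N).one_mem
  | succ p ih => exact (S N).mul_mem (ih (by omega)) (σ_mem_S (by omega))

theorem comm_Bn4 {j : ℕ} (hj : 4 ≤ j) {β : B} (hβ : β ∈ Bn 4) : Commute (σ j) β := by
  refine Bn_induction (p := fun β => Commute (σ j) β) ?_ ?_ ?_ ?_ hβ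
  · exact Commute.one_right _
  · intro i hi
    exact (σ_comm (by omega)).symm
  · intro x _ y _ hx hy
    exact hx.mul_right hy
  · intro x _ hx
    exact hx.inv_right

theorem hp_far {p i : ℕ} (h : p + 1 ≤ i) : Commute (hp p) (σ (3 + i)) := by
  induction p with
  | zero => exact Commute.one_left _
  | succ p ih => exact (ih (by omega)).mul_left (σ_comm (by omega))

theorem hp_near {p i : ℕ} (h : i + 2 ≤ p) : hp p * σ (3 + i) = σ (4 + i) * hp p := by
  induction p with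
  | zero => omega
  | succ p ih =>
    by_cases hip : i + 2 ≤ p
    · have hc : σ (3 + i) * σ (3 + p) = σ (3 + p) * σ (3 + i) := σ_comm (by omega)
      calc hp p * σ (3 + p) * σ (3 + i) = hp p * (σ (3 + p) * σ (3 + i)) := mul_assoc _ _ _
        _ = hp p * (σ (3 + i) * σ (3 + p)) := by rw [hc]
        _ = (hp p * σ (3 + i)) * σ (3 + p) := (mul_assoc _ _ _).symm
        _ = σ (4 + i) * (hp p * σ (3 + p)) := by rw [ih hip, mul_assoc]
    · have hp1 : p = i + 1 := by omega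
      subst hp1
      have hbr : σ (3 + i) * σ (4 + i) * σ (3 + i) = σ (4 + i) * σ (3 + i) * σ (4 + i) := by
        have := σ_braid (3 + i)
        rwa [show 3 + i + 1 = 4 + i by omega] at this
      have hc : Commute (hp i) (σ (4 + i)) := by
        have := hp_far (p := i) (i := i + 1) le_rfl
        rwa [show 3 + (i + 1) = 4 + i by omega] at this
      have e1 : hp (i + 1 + 1) = hp i * σ (3 + i) * σ (4 + i) := by
        show hp i * σ (3 + i) * σ (3 + (i + 1)) = _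
        rw [show 3 + (i + 1) = 4 + i by omega]
      rw [e1]
      calc hp i * σ (3 + i) * σ (4 + i) * σ (3 + i)
          = hp i * (σ (3 + i) * σ (4 + i) * σ (3 + i)) := by simp only [mul_assoc]
        _ = hp i * (σ (4 + i) * σ (3 + i) * σ (4 + i)) := by rw [hbr]
        _ = (hp i * σ (4 + i)) * σ (3 + i) * σ (4 + i) := by simp only [mul_assoc]
        _ = σ (4 + i) * (hp i * σ (3 + i) * σ (4 + i)) := by rw [hc.eq]; simp only [mul_assoc]

/-- The full twist of the strands `3 + q`, `4 + q`, moved to the strand `3`. -/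
theorem A_eq (q : ℕ) : ∃ r : B, r ∈ S (q + 2) ∧ (∀ β ∈ Bn 4, Commute r β) ∧
    hp q * (σ (3 + q) * σ (3 + q)) * (hp q)⁻¹ = r * (σ 3 * σ 3) * r⁻¹ := by
  induction q with
  | zero => exact ⟨1, (S _).one_mem, fun β _ => Commute.one_left _, by simp [hp]⟩
  | succ q ih =>
    obtain ⟨r, hr, hc, he⟩ := ih
    refine ⟨(σ (4 + q))⁻¹ * r, ?_, ?_, ?_⟩
    · refine (S _).mul_mem ((S _).inv_mem ?_) (S_mono (by omega) hr)
      have := σ_mem_S (i := q + 1) (N := q + 1 + 2) (by omega)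
      rwa [show 3 + (q + 1) = 4 + q by omega] at this
    · intro β hβ
      exact (comm_Bn4 (by omega) hβ).inv_left.mul_left (hc β hβ)
    · have hbr : σ (3 + q) * σ (4 + q) * σ (3 + q) = σ (4 + q) * σ (3 + q) * σ (4 + q) := by
        have := σ_braid (3 + q)
        rwa [show 3 + q + 1 = 4 + q by omega] at this
      have hcq : Commute (hp q) (σ (4 + q)) := by
        have := hp_far (p := q) (i := q + 1) le_rfl
        rwa [show 3 + (q + 1) = 4 + q by omega] at this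
      -- `s t s⁻¹ = t⁻¹ s t`
      have hst : σ (3 + q) * σ (4 + q) * (σ (3 + q))⁻¹ =
          (σ (4 + q))⁻¹ * σ (3 + q) * σ (4 + q) := by
        rw [mul_inv_eq_iff_eq_mul, eq_comm, mul_assoc, mul_assoc, inv_mul_eq_iff_eq_mul,
          ← mul_assoc, ← mul_assoc, hbr]
      have hst2 : σ (3 + q) * (σ (4 + q) * σ (4 + q)) * (σ (3 + q))⁻¹ =
          (σ (4 + q))⁻¹ * (σ (3 + q) * σ (3 + q)) * σ (4 + q) := by
        calc σ (3 + q) * (σ (4 + q) * σ (4 + q)) * (σ (3 + q))⁻¹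
            = (σ (3 + q) * σ (4 + q) * (σ (3 + q))⁻¹) *
              (σ (3 + q) * σ (4 + q) * (σ (3 + q))⁻¹) := by group
          _ = ((σ (4 + q))⁻¹ * σ (3 + q) * σ (4 + q)) *
              ((σ (4 + q))⁻¹ * σ (3 + q) * σ (4 + q)) := by rw [hst]
          _ = _ := by group
      have e0 : (3 + (q + 1)) = 4 + q := by omega
      rw [e0]
      have e1 : hp (q + 1) = hp q * σ (3 + q) := rfl
      rw [e1]
      calc hp q * σ (3 + q) * (σ (4 + q) * σ (4 + q)) * (hp q * σ (3 + q))⁻¹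
          = hp q * (σ (3 + q) * (σ (4 + q) * σ (4 + q)) * (σ (3 + q))⁻¹) * (hp q)⁻¹ := by group
        _ = hp q * ((σ (4 + q))⁻¹ * (σ (3 + q) * σ (3 + q)) * σ (4 + q)) * (hp q)⁻¹ := by
            rw [hst2]
        _ = (hp q * (σ (4 + q))⁻¹) * (σ (3 + q) * σ (3 + q)) * (σ (4 + q) * (hp q)⁻¹) := by
            group
        _ = ((σ (4 + q))⁻¹ * hp q) * (σ (3 + q) * σ (3 + q)) * ((hp q)⁻¹ * σ (4 + q)) := by
            rw [hcq.inv_right.eq, hcq.inv_left.symm.eq]
        _ = (σ (4 + q))⁻¹ * (hp q * (σ (3 + q) * σ (3 + q)) * (hp q)⁻¹) * σ (4 + q) := by group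
        _ = (σ (4 + q))⁻¹ * (r * (σ 3 * σ 3) * r⁻¹) * σ (4 + q) := by rw [he]
        _ = _ := by group

theorem surf_conj_iff (hSC : SurfConjStmt) {n : ℕ} {β g : B} {e : ℕ} (hg : g ∈ Bn n) :
    Surf n (g * β * g⁻¹) e ↔ Surf n β e := by
  constructor
  · intro h
    have := hSC n (g * β * g⁻¹) g⁻¹ e ((Bn n).inv_mem hg) h
    have h2 : g⁻¹ * (g * β * g⁻¹) * g⁻¹⁻¹ = β := by group
    rwa [h2] at this
  · exact hSC n β g e hg

theorem slideA (hSC : SurfConjStmt) (hSL : SlideStmt) {N q e : ℕ} {X β A : B}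
    (hN : q + 1 < N) (hX : X ∈ S N) (hβ : β ∈ Bn 4)
    (hA : A = hp q * (σ (3 + q) * σ (3 + q)) * (hp q)⁻¹) :
    Surf (N + 3) (X * β * A) e ↔ Surf (N + 3) (X * A * β) e := by
  obtain ⟨r, hr, hc, he⟩ := A_eq q
  rw [he] at hA
  have hrS : r ∈ S N := S_mono (by omega) hr
  have hrB : r ∈ Bn (N + 3) := S_le N hrS
  have hY : r⁻¹ * X * r ∈ S N := (S N).mul_mem ((S N).mul_mem ((S N).inv_mem hrS) hX) hrS
  obtain ⟨Y, hYB, hYe⟩ := hY
  have h1 : X * β * A = r * (r⁻¹ * X * r * β * (σ 3 * σ 3)) * r⁻¹ := by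
    have hcr : r * β = β * r := (hc β hβ).eq
    calc X * β * A = X * (β * r) * (σ 3 * σ 3) * r⁻¹ := by rw [hA]; group
      _ = X * (r * β) * (σ 3 * σ 3) * r⁻¹ := by rw [hcr]
      _ = _ := by group
  have h2 : X * A * β = r * (r⁻¹ * X * r * (σ 3 * σ 3) * β) * r⁻¹ := by
    have hcr : r⁻¹ * β = β * r⁻¹ := (hc β hβ).inv_left.eq
    calc X * A * β = X * r * (σ 3 * σ 3) * (r⁻¹ * β) := by rw [hA]; group
      _ = X * r * (σ 3 * σ 3) * (β * r⁻¹) := by rw [hcr]
      _ = _ := by group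
  rw [h1, h2, surf_conj_iff hSC hrB, surf_conj_iff hSC hrB, ← hYe]
  exact hSL (N + 3) Y β e (by omega) hβ (by simpa using hYB)

theorem β77_mem : β77 ∈ Bn 4 := by
  have h0 : σ 0 ∈ Bn 4 := σ_mem_Bn (by omega)
  have h1 : σ 1 ∈ Bn 4 := σ_mem_Bn (by omega)
  have h2 : σ 2 ∈ Bn 4 := σ_mem_Bn (by omega)
  unfold β77
  exact (Bn 4).mul_mem ((Bn 4).mul_mem ((Bn 4).mul_mem ((Bn 4).mul_mem ((Bn 4).mul_mem
    ((Bn 4).mul_mem ((Bn 4).inv_mem h0) h1) ((Bn 4).inv_mem h0)) h1) ((Bn 4).inv_mem h2)) h1)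
    ((Bn 4).inv_mem h2)

/-- The reduction: it suffices to write `hp p' * sh3 g = k * hp p` with good `k`. -/
theorem mk_of (hSC : SurfConjStmt) {N p p' e : ℕ} {W g k : B} (hW : W ∈ Bn N)
    (hg : g ∈ Bn N) (hp0 : p < N) (hk : hp p' * sh3 g = k * hp p)
    (hS : ∀ Z ∈ S N, Surf (N + 3) (Z * (k⁻¹ * β77 * k)) e → Surf (N + 3) (Z * β77) e)
    (h : SurfMk N (g * W * g⁻¹) p' e) : SurfMk N W p e := by
  unfold SurfMk at h ⊢
  rw [sh3_eq] at h ⊢
  have hG : sh3 g ∈ Bn (N + 3) := S_le N (sh3_mem_S hg)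
  have hP : hp p ∈ S N := hp_mem hp0
  have hPB : hp p ∈ Bn (N + 3) := S_le N hP
  have hZ : hp p * sh3 W * (hp p)⁻¹ ∈ S N :=
    (S N).mul_mem ((S N).mul_mem hP (sh3_mem_S hW)) ((S N).inv_mem hP)
  have e1 : hp p' = k * hp p * (sh3 g)⁻¹ := by rw [← hk]; group
  have h1 : sh3 (g * W * g⁻¹) * ((hp p')⁻¹ * β77 * hp p') =
      (sh3 g * (hp p)⁻¹) * (hp p * sh3 W * (hp p)⁻¹ * (k⁻¹ * β77 * k)) *
        (sh3 g * (hp p)⁻¹)⁻¹ := by
    rw [e1]; simp only [map_mul, map_inv]; group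
  have h2 : sh3 W * ((hp p)⁻¹ * β77 * hp p) =
      (hp p)⁻¹ * (hp p * sh3 W * (hp p)⁻¹ * β77) * (hp p)⁻¹⁻¹ := by group
  rw [h1, surf_conj_iff hSC ((Bn _).mul_mem hG ((Bn _).inv_mem hPB))] at h
  rw [h2, surf_conj_iff hSC ((Bn _).inv_mem hPB)]
  exact hS _ hZ h

theorem comm_case {N : ℕ} {e : ℕ} {k : B} (hk : Commute k β77) (Z : B)
    (h : Surf (N + 3) (Z * (k⁻¹ * β77 * k)) e) : Surf (N + 3) (Z * β77) e := by
  have : k⁻¹ * β77 * k = β77 := by rw [mul_assoc, ← hk.eq]; group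
  rwa [this] at h

theorem MKC_thm (hSC : SurfConjStmt) (hSL : SlideStmt) : MkConjStmt := by
  intro N W g p e i hW hi hp0 hg h
  have hσ : σ i ∈ Bn N := σ_mem_Bn hi
  have hgB : g ∈ Bn N := by
    rcases hg with rfl | rfl
    · exact hσ
    · exact (Bn N).inv_mem hσ
  have hperm : perm g p = Equiv.swap i (i + 1) p := by
    rcases hg with rfl | rfl
    · rw [perm_σ]
    · rw [map_inv, perm_σ, Equiv.swap_inv]
  rw [hperm] at h
  -- the case analysis
  rcases lt_trichotomy i p with hip | hip | hip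
  · by_cases hip2 : i + 1 = p
    · -- `p = i + 1`, `p' = i`
      subst hip2
      rw [Equiv.swap_apply_right] at h
      rcases hg with rfl | rfl
      · refine mk_of hSC (k := 1) hW hgB hp0 ?_ (fun Z _ => comm_case (Commute.one_left _) Z) h
        rw [sh3_σ, one_mul]; rfl
      · -- `k = A⁻¹`
        refine mk_of hSC (k := (hp i * (σ (3 + i) * σ (3 + i)) * (hp i)⁻¹)⁻¹) hW hgB hp0 ?_ ?_ h
        · have : hp (i + 1) = hp i * σ (3 + i) := rfl
          rw [map_inv, sh3_σ, this]; group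
        · intro Z hZ hs
          set A := hp i * (σ (3 + i) * σ (3 + i)) * (hp i)⁻¹ with hA
          have hAS : A ∈ S N := by
            have h1 : hp i ∈ S N := hp_mem (by omega)
            have h2 : σ (3 + i) ∈ S N := σ_mem_S hi
            exact (S N).mul_mem ((S N).mul_mem h1 ((S N).mul_mem h2 h2)) ((S N).inv_mem h1)
          have hAB : A ∈ Bn (N + 3) := S_le N hAS
          have e1 : Z * (A⁻¹⁻¹ * β77 * A⁻¹) = A * ((A⁻¹ * Z) * A * β77) * A⁻¹ := by group
          have e2 : Z * β77 = A * ((A⁻¹ * Z) * β77 * A) * A⁻¹ := by group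
          rw [e1, surf_conj_iff hSC hAB] at hs
          rw [e2, surf_conj_iff hSC hAB]
          exact (slideA hSC hSL hi ((S N).mul_mem ((S N).inv_mem hAS) hZ) β77_mem hA).mpr hs
    · -- `i + 2 ≤ p`
      have hne1 : p ≠ i := by omega
      have hne2 : p ≠ i + 1 := by omega
      rw [Equiv.swap_apply_of_ne_of_ne hne1 hne2] at h
      have hn : hp p * σ (3 + i) = σ (4 + i) * hp p := hp_near (by omega)
      rcases hg with rfl | rfl
      · refine mk_of hSC (k := σ (4 + i)) hW hgB hp0 ?_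
          (fun Z _ => comm_case (comm_Bn4 (by omega) β77_mem) Z) h
        rw [sh3_σ, hn]
      · refine mk_of hSC (k := (σ (4 + i))⁻¹) hW hgB hp0 ?_
          (fun Z _ => comm_case (comm_Bn4 (by omega) β77_mem).inv_left Z) h
        rw [map_inv, sh3_σ, eq_inv_mul_iff_mul_eq, ← mul_assoc, ← hn, mul_inv_cancel_right]
  · -- `p = i`, `p' = i + 1`
    subst hip
    rw [Equiv.swap_apply_left] at h
    have e0 : hp (i + 1) = hp i * σ (3 + i) := rfl
    rcases hg with rfl | rfl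
    · -- `k = A`
      refine mk_of hSC (k := hp i * (σ (3 + i) * σ (3 + i)) * (hp i)⁻¹) hW hgB hp0 ?_ ?_ h
      · rw [sh3_σ, e0]; group
      · intro Z hZ hs
        set A := hp i * (σ (3 + i) * σ (3 + i)) * (hp i)⁻¹ with hA
        have hAS : A ∈ S N := by
          have h1 : hp i ∈ S N := hp_mem (by omega)
          have h2 : σ (3 + i) ∈ S N := σ_mem_S hi
          exact (S N).mul_mem ((S N).mul_mem h1 ((S N).mul_mem h2 h2)) ((S N).inv_mem h1)
        have e1 : Z * (A⁻¹ * β77 * A) = (Z * A⁻¹) * β77 * A := by group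
        have e2 : Z * β77 = (Z * A⁻¹) * A * β77 := by group
        rw [e1] at hs
        rw [e2]
        exact (slideA hSC hSL hi ((S N).mul_mem hZ ((S N).inv_mem hAS)) β77_mem hA).mp hs
    · refine mk_of hSC (k := 1) hW hgB hp0 ?_ (fun Z _ => comm_case (Commute.one_left _) Z) h
      rw [map_inv, sh3_σ, e0]; group
  · -- `p < i`
    have hne1 : p ≠ i := by omega
    have hne2 : p ≠ i + 1 := by omega
    rw [Equiv.swap_apply_of_ne_of_ne hne1 hne2] at h
    have hn : Commute (hp p) (σ (3 + i)) := hp_far (by omega)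
    rcases hg with rfl | rfl
    · refine mk_of hSC (k := σ (3 + i)) hW hgB hp0 ?_
        (fun Z _ => comm_case (comm_Bn4 (by omega) β77_mem) Z) h
      rw [sh3_σ, hn.eq]
    · refine mk_of hSC (k := (σ (3 + i))⁻¹) hW hgB hp0 ?_
        (fun Z _ => comm_case (comm_Bn4 (by omega) β77_mem).inv_left Z) h
      rw [map_inv, sh3_σ, hn.inv_right.eq]

end Pool.Agent.H52.SG
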